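import Pool.Agent.W203.BE.Stms
import Pool.Agent.Helper76.HPlanch

/-!
Project BE, part PL: Plancherel in the parameter `w`.
-/

set_option autoImplicit false

open MeasureTheory Set Complex FourierTransform
open scoped ENNReal

namespace Pool.Agent.W351.BE

open Pool.Agent.W203.BE

/-- the exponential factor -/
noncomputable def ex (r w u : ℝ) : ℂ :=
  cexp (-(2 * (Real.pi : ℂ) * (⟨r, -w⟩ : ℂ) * (u : ℂ) ^ 2))

theorem ex_eq (r w u : ℝ) : ex r w u = (Real.exp (-(2 * Real.pi * r * u ^ 2)) : ℂ) *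
    cexp ((2 * Real.pi * w * u ^ 2 : ℝ) * I) := by
  unfold ex
  have : (⟨r, -w⟩ : ℂ) = (r : ℂ) - w * I := by
    apply Complex.ext <;> simp
  rw [this, Complex.ofReal_exp, ← Complex.exp_add]
  congr 1
  push_cast
  ring

theorem norm_ex (r w u : ℝ) : ‖ex r w u‖ = Real.exp (-(2 * Real.pi * r * u ^ 2)) := by
  rw [ex_eq, norm_mul, Complex.norm_exp_ofReal_mul_I, mul_one, Complex.norm_real,
    Real.norm_eq_abs, abs_of_pos (Real.exp_pos _)]

theorem norm_ex_le (r w u : ℝ) (hr : 0 < r) : ‖ex r w u‖ ≤ 1 := by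
  rw [norm_ex]
  apply Real.exp_le_one_iff.2
  have := Real.pi_pos
  have : 0 ≤ 2 * Real.pi * r * u ^ 2 := by positivity
  linarith

theorem cont_ex (r w : ℝ) : Continuous (ex r w) := by
  unfold ex
  fun_prop

theorem int_F {G : ℝ → ℂ} (hG : Measurable G) (hI : Integrable G) (r w : ℝ) (hr : 0 < r) :
    Integrable (fun u => G u * ex r w u) := by
  refine hI.norm.mono' ((hG.mul (cont_ex r w).measurable).aestronglyMeasurable)
    (Filter.Eventually.of_forall fun u => ?_)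
  rw [norm_mul]
  calc ‖G u‖ * ‖ex r w u‖ ≤ ‖G u‖ * 1 :=
        mul_le_mul_of_nonneg_left (norm_ex_le r w u hr) (norm_nonneg _)
    _ = ‖G u‖ := mul_one _

/-- Cauchy-Schwarz -/
theorem cs (f : ℝ → ℝ≥0∞) (s : Set ℝ) (hf : Measurable f) :
    (∫⁻ u in s, f u) ^ 2 ≤ volume s * ∫⁻ u in s, f u ^ 2 := by
  have h := ENNReal.lintegral_mul_le_Lp_mul_Lq (volume.restrict s) (p := 2) (q := 2)
    (by constructor <;> norm_num) (f := f) (g := fun _ => 1) hf.aemeasurable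
    aemeasurable_const
  simp only [Pi.mul_apply, mul_one, ENNReal.one_rpow, lintegral_const, one_mul,
    Measure.restrict_apply MeasurableSet.univ, univ_inter] at h
  have h2 := pow_le_pow_left₀ zero_le h 2
  rw [mul_pow, ← ENNReal.rpow_natCast, ← ENNReal.rpow_natCast, ← ENNReal.rpow_natCast,
    ← ENNReal.rpow_mul, ← ENNReal.rpow_mul] at h2
  norm_num at h2
  rw [mul_comm]
  simpa using h2

/-- the function on the half line -/
noncomputable def H0 (G : ℝ → ℂ) (r v : ℝ) : ℂ :=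
  G (Real.sqrt v) * (((Real.sqrt v)⁻¹ : ℝ) : ℂ) * (Real.exp (-(2 * Real.pi * r * v)) : ℂ)

noncomputable def H (G : ℝ → ℂ) (r : ℝ) : ℝ → ℂ := (Ioi (1 : ℝ)).indicator (H0 G r)

theorem img : (fun u : ℝ => u ^ 2) '' Ioi 1 = Ioi 1 := by
  ext v
  constructor
  · rintro ⟨u, hu, rfl⟩
    have : (1 : ℝ) < u := hu
    show 1 < u ^ 2
    nlinarith
  · intro hv
    have hv' : (1 : ℝ) < v := hv
    refine ⟨Real.sqrt v, ?_, Real.sq_sqrt (by linarith)⟩
    show 1 < Real.sqrt v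
    rw [Real.lt_sqrt (by norm_num)]
    simpa using hv'

theorem hder : ∀ x ∈ Ioi (1 : ℝ), HasDerivWithinAt (fun u : ℝ => u ^ 2) (2 * x) (Ioi 1) x := by
  intro x _
  have := (hasDerivAt_pow 2 x).hasDerivWithinAt (s := Ioi 1)
  simpa using this

theorem inj : InjOn (fun u : ℝ => u ^ 2) (Ioi 1) := by
  intro x hx y hy h
  have hx' : (1 : ℝ) < x := hx
  have hy' : (1 : ℝ) < y := hy
  exact (sq_eq_sq₀ (by linarith) (by linarith)).1 h

theorem H0_sq (G : ℝ → ℂ) (r u : ℝ) (hu : 1 < u) :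
    H0 G r (u ^ 2) = G u * ((u⁻¹ : ℝ) : ℂ) * (Real.exp (-(2 * Real.pi * r * u ^ 2)) : ℂ) := by
  unfold H0
  rw [Real.sqrt_sq (by linarith)]

theorem H_meas {G : ℝ → ℂ} (hG : Measurable G) (r : ℝ) : Measurable (H G r) := by
  refine Measurable.indicator ?_ measurableSet_Ioi
  unfold H0
  refine ((hG.comp Real.continuous_sqrt.measurable).mul
    (Complex.measurable_ofReal.comp (Real.continuous_sqrt.measurable.inv))).mul ?_
  exact Complex.measurable_ofReal.comp (Real.continuous_exp.measurable.comp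
    (by fun_prop))

theorem H_int {G : ℝ → ℂ} (hG : Measurable G) (hI : Integrable G) (r : ℝ) (hr : 0 < r) :
    Integrable (H G r) := by
  unfold H
  rw [integrable_indicator_iff measurableSet_Ioi]
  have h := integrableOn_image_iff_integrableOn_abs_deriv_smul measurableSet_Ioi hder inj (H0 G r)
  rw [img] at h
  rw [h]
  have h2 := ((int_F hG hI r 0 hr).const_mul 2).integrableOn (s := Ioi 1)
  refine h2.congr_fun (fun u hu => ?_) measurableSet_Ioi
  have hu' : (1 : ℝ) < u := hu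
  show 2 * (G u * ex r 0 u) = |2 * u| • H0 G r (u ^ 2)
  rw [H0_sq G r u hu', ex_eq, abs_of_pos (by linarith), Complex.real_smul]
  push_cast
  have hu0 : (u : ℂ) ≠ 0 := by
    exact_mod_cast (by linarith : u ≠ 0)
  field_simp
  simp

theorem H_fourier {G : ℝ → ℂ} (r w : ℝ) :
    𝓕 (H G r) (-w) = 2 * ∫ u in Ioi 1, G u * ex r w u := by
  rw [Real.fourier_real_eq_integral_exp_smul]
  have e1 : ∀ v : ℝ, cexp (((-2 * Real.pi * v * (-w) : ℝ) : ℂ) * I) • H G r v =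
      (Ioi (1 : ℝ)).indicator
        (fun v => cexp (((-2 * Real.pi * v * (-w) : ℝ) : ℂ) * I) • H0 G r v) v := by
    intro v
    unfold H
    by_cases hv : v ∈ Ioi (1 : ℝ)
    · rw [indicator_of_mem hv, indicator_of_mem hv]
    · rw [indicator_of_notMem hv, indicator_of_notMem hv, smul_zero]
  rw [integral_congr_ae (Filter.Eventually.of_forall e1), integral_indicator measurableSet_Ioi]
  have h := integral_image_eq_integral_abs_deriv_smul measurableSet_Ioi hder inj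
    (fun v => cexp (((-2 * Real.pi * v * (-w) : ℝ) : ℂ) * I) • H0 G r v)
  rw [img] at h
  rw [h, ← integral_const_mul]
  refine setIntegral_congr_fun measurableSet_Ioi fun u hu => ?_
  have hu' : (1 : ℝ) < u := hu
  show |2 * u| • (cexp (((-2 * Real.pi * u ^ 2 * (-w) : ℝ) : ℂ) * I) • H0 G r (u ^ 2)) =
    2 * (G u * ex r w u)
  rw [H0_sq G r u hu', ex_eq, abs_of_pos (by linarith), Complex.real_smul, smul_eq_mul,
    show -2 * Real.pi * u ^ 2 * (-w) = 2 * Real.pi * w * u ^ 2 by ring]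
  have hu0 : (u : ℂ) ≠ 0 := by
    exact_mod_cast (by linarith : u ≠ 0)
  push_cast
  field_simp

theorem H_sq {G : ℝ → ℂ} (r : ℝ) : ∫⁻ v, ‖H G r v‖ₑ ^ 2 = ∫⁻ u in Ioi 1, 2 * (‖G u‖ₑ ^ 2 *
    ENNReal.ofReal (Real.exp (-(4 * Real.pi * r * u ^ 2)) / |u|)) := by
  have e1 : ∀ v : ℝ, ‖H G r v‖ₑ ^ 2 = (Ioi (1 : ℝ)).indicator (fun v => ‖H0 G r v‖ₑ ^ 2) v := by
    intro v
    unfold H
    by_cases hv : v ∈ Ioi (1 : ℝ)
    · rw [indicator_of_mem hv, indicator_of_mem hv]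
    · rw [indicator_of_notMem hv, indicator_of_notMem hv]
      simp
  rw [lintegral_congr e1, lintegral_indicator measurableSet_Ioi]
  have h := lintegral_image_eq_lintegral_abs_deriv_mul measurableSet_Ioi hder inj
    (fun v => ‖H0 G r v‖ₑ ^ 2)
  rw [img] at h
  rw [h]
  refine setLIntegral_congr_fun measurableSet_Ioi fun u hu => ?_
  have hu' : (1 : ℝ) < u := hu
  have hu0 : (0 : ℝ) < u := by linarith
  show ENNReal.ofReal |2 * u| * ‖H0 G r (u ^ 2)‖ₑ ^ 2 = _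
  rw [H0_sq G r u hu']
  have e2 : ‖G u * ((u⁻¹ : ℝ) : ℂ) * (Real.exp (-(2 * Real.pi * r * u ^ 2)) : ℂ)‖ₑ =
      ‖G u‖ₑ * ENNReal.ofReal (u⁻¹ * Real.exp (-(2 * Real.pi * r * u ^ 2))) := by
    rw [enorm_mul, enorm_mul, mul_assoc, ENNReal.ofReal_mul (by positivity)]
    congr 2
    · rw [← ofReal_norm, Complex.norm_real, Real.norm_eq_abs, abs_of_pos (by positivity)]
    · rw [← ofReal_norm, Complex.norm_real, Real.norm_eq_abs, abs_of_pos (Real.exp_pos _)]
  rw [e2, mul_pow, ← ENNReal.ofReal_pow (by positivity), mul_left_comm, mul_left_comm 2]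
  congr 1
  rw [← ENNReal.ofReal_mul (by positivity), show (2 : ℝ≥0∞) = ENNReal.ofReal 2 by simp,
    ← ENNReal.ofReal_mul (by norm_num)]
  congr 1
  rw [abs_of_pos (by positivity), abs_of_pos hu0, mul_pow, ← Real.exp_nat_mul]
  have e3 : ((2 : ℕ) : ℝ) * -(2 * Real.pi * r * u ^ 2) = -(4 * Real.pi * r * u ^ 2) := by
    push_cast; ring
  rw [e3]
  field_simp

theorem setS : {u : ℝ | 1 < |u|} = Ioi 1 ∪ Iio (-1) := by
  ext u
  simp only [mem_ofPred_eq, mem_union, mem_Ioi, mem_Iio, lt_abs]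
  constructor
  · rintro (h | h)
    · exact Or.inl h
    · exact Or.inr (by linarith)
  · rintro (h | h)
    · exact Or.inl h
    · exact Or.inr (by linarith)

theorem I1_eq {G : ℝ → ℂ} (hG : Measurable G) (hI : Integrable G) (he : ∀ u, G (-u) = G u)
    (r w : ℝ) (hr : 0 < r) :
    ∫ u in {u : ℝ | 1 < |u|}, G u * ex r w u = 𝓕 (H G r) (-w) := by
  have hF := int_F hG hI r w hr
  have hd : Disjoint (Ioi (1 : ℝ)) (Iio (-1)) := by
    rw [Set.disjoint_left]
    intro u h1 h2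
    have h1' : (1 : ℝ) < u := h1
    have h2' : u < -1 := h2
    linarith
  rw [setS, setIntegral_union hd measurableSet_Iio hF.integrableOn hF.integrableOn, H_fourier,
    ← integral_Iic_eq_integral_Iio, ← integral_comp_neg_Ioi]
  have : ∫ u in Ioi (1 : ℝ), G (-u) * ex r w (-u) = ∫ u in Ioi (1 : ℝ), G u * ex r w u := by
    refine integral_congr_ae (Filter.Eventually.of_forall fun u => ?_)
    show G (-u) * ex r w (-u) = G u * ex r w u
    rw [he]
    congr 1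
    unfold ex
    congr 1
    push_cast
    ring
  rw [this]
  ring

theorem pl : S_PL := by
  refine ⟨28, by norm_num, ?_⟩
  intro G hG hI he r w₀ hr hw₀
  set A : ℝ≥0∞ := ∫⁻ u in {u : ℝ | 1 < |u|}, ‖G u‖ₑ ^ 2 *
        ENNReal.ofReal (Real.exp (-(4 * Real.pi * r * u ^ 2)) / |u|) with hA
  set B : ℝ≥0∞ := ∫⁻ u in {u : ℝ | |u| ≤ 1}, ‖G u‖ₑ ^ 2 with hB
  by_cases hAt : A = ⊤
  · rw [hAt]
    have : ENNReal.ofReal 28 * (⊤ + ENNReal.ofReal w₀ * B) = ⊤ := by
      rw [top_add, ENNReal.mul_top]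
      simp
    rw [this]
    exact le_top
  have hS : MeasurableSet {u : ℝ | 1 < |u|} := measurableSet_lt measurable_const measurable_id.abs
  have hSc : {u : ℝ | 1 < |u|}ᶜ = {u : ℝ | |u| ≤ 1} := by
    ext u; simp
  -- the norm of H
  have hHA : ∫⁻ v, ‖H G r v‖ₑ ^ 2 ≤ 2 * A := by
    rw [H_sq, lintegral_const_mul _ (by
      have : Measurable G := hG
      fun_prop)]
    gcongr
    exact lintegral_mono_set (by rw [setS]; exact subset_union_left)
  have hH2 : MemLp (H G r) 2 := by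
    refine ⟨(H_meas hG r).aestronglyMeasurable, ?_⟩
    rw [eLpNorm_lt_top_iff_lintegral_rpow_enorm_lt_top (by norm_num) (by norm_num)]
    simp only [ENNReal.toReal_ofNat, ENNReal.rpow_ofNat]
    refine lt_of_le_of_lt hHA ?_
    exact ENNReal.mul_lt_top (by simp) (lt_top_iff_ne_top.2 hAt)
  have hpl := Pool.Agent.Helper76.NormalHP.plancherel_lintegral (H G r) (H_int hG hI r hr) hH2
  -- pointwise
  have hpt : ∀ w : ℝ, ‖∫ u : ℝ, G u * ex r w u‖ₑ ^ 2 ≤ 2 * ‖𝓕 (H G r) (-w)‖ₑ ^ 2 + 4 * B := by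
    intro w
    have hF := int_F hG hI r w hr
    rw [← integral_add_compl hS hF, I1_eq hG hI he r w hr, hSc]
    set a := 𝓕 (H G r) (-w)
    set b := ∫ u in {u : ℝ | |u| ≤ 1}, G u * ex r w u with hb
    have h1 : ‖b‖ₑ ≤ ∫⁻ u in {u : ℝ | |u| ≤ 1}, ‖G u‖ₑ := by
      rw [hb]
      refine (enorm_integral_le_lintegral_enorm _).trans (lintegral_mono fun u => ?_)
      rw [enorm_mul]
      have : ‖ex r w u‖ₑ ≤ 1 := by
        rw [← ofReal_norm]
        exact ENNReal.ofReal_le_one.2 (norm_ex_le r w u hr)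
      calc ‖G u‖ₑ * ‖ex r w u‖ₑ ≤ ‖G u‖ₑ * 1 := by gcongr
        _ = ‖G u‖ₑ := mul_one _
    have h2 : ‖b‖ₑ ^ 2 ≤ 2 * B := by
      have h3 := pow_le_pow_left₀ zero_le h1 2
      refine h3.trans ((cs _ _ hG.enorm).trans ?_)
      rw [hB]
      gcongr
      have : {u : ℝ | |u| ≤ 1} = Icc (-1) 1 := by
        ext u; simp [abs_le]
      rw [this, Real.volume_Icc]
      norm_num
    have h4 : ‖a + b‖ₑ ^ 2 ≤ 2 * ‖a‖ₑ ^ 2 + 2 * ‖b‖ₑ ^ 2 := by
      have h5 : ‖a + b‖ ^ 2 ≤ 2 * ‖a‖ ^ 2 + 2 * ‖b‖ ^ 2 := by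
        have h6 := norm_add_le a b
        have h7 := pow_le_pow_left₀ (norm_nonneg _) h6 2
        nlinarith [sq_nonneg (‖a‖ - ‖b‖)]
      have h8 := ENNReal.ofReal_le_ofReal h5
      rw [ENNReal.ofReal_add (by positivity) (by positivity), ENNReal.ofReal_mul (by norm_num),
        ENNReal.ofReal_mul (by norm_num), ENNReal.ofReal_pow (norm_nonneg _),
        ENNReal.ofReal_pow (norm_nonneg _), ENNReal.ofReal_pow (norm_nonneg _),
        ofReal_norm, ofReal_norm, ofReal_norm] at h8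
      simpa using h8
    calc ‖a + b‖ₑ ^ 2 ≤ 2 * ‖a‖ₑ ^ 2 + 2 * ‖b‖ₑ ^ 2 := h4
      _ ≤ 2 * ‖a‖ₑ ^ 2 + 2 * (2 * B) := by gcongr
      _ = 2 * ‖a‖ₑ ^ 2 + 4 * B := by
        rw [← mul_assoc]; norm_num
  calc ∫⁻ w in Icc w₀ (8 * w₀), ‖∫ u : ℝ, G u *
        cexp (-(2 * (Real.pi : ℂ) * (⟨r, -w⟩ : ℂ) * (u : ℂ) ^ 2))‖ₑ ^ 2
      ≤ ∫⁻ w in Icc w₀ (8 * w₀), (2 * ‖𝓕 (H G r) (-w)‖ₑ ^ 2 + 4 * B) :=
        lintegral_mono fun w => hpt w
    _ = (∫⁻ w in Icc w₀ (8 * w₀), 2 * ‖𝓕 (H G r) (-w)‖ₑ ^ 2) + 4 * B * volume (Icc w₀ (8 * w₀)) := by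
        rw [lintegral_add_right _ measurable_const, setLIntegral_const]
    _ ≤ (∫⁻ w, 2 * ‖𝓕 (H G r) (-w)‖ₑ ^ 2) + 4 * B * volume (Icc w₀ (8 * w₀)) := by
        gcongr
        exact Measure.restrict_le_self
    _ = 2 * (∫⁻ w, ‖𝓕 (H G r) (-w)‖ₑ ^ 2) + 4 * B * volume (Icc w₀ (8 * w₀)) := by
        rw [lintegral_const_mul' _ _ (by norm_num)]
    _ = 2 * (∫⁻ w, ‖H G r w‖ₑ ^ 2) + 4 * B * volume (Icc w₀ (8 * w₀)) := by
        rw [lintegral_neg_eq_self (fun w => ‖𝓕 (H G r) w‖ₑ ^ 2), hpl]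
    _ ≤ 2 * (2 * A) + 4 * B * ENNReal.ofReal (7 * w₀) := by
        gcongr
        rw [Real.volume_Icc]
        apply ENNReal.ofReal_le_ofReal
        linarith
    _ = 4 * A + 28 * (ENNReal.ofReal w₀ * B) := by
        rw [ENNReal.ofReal_mul (by norm_num), ← mul_assoc]
        have : ENNReal.ofReal 7 = 7 := by simp
        rw [this]
        ring
    _ ≤ 28 * A + 28 * (ENNReal.ofReal w₀ * B) := by
        gcongr
        norm_num
    _ = ENNReal.ofReal 28 * (A + ENNReal.ofReal w₀ * B) := by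
        have : ENNReal.ofReal 28 = 28 := by simp
        rw [this, mul_add]

end Pool.Agent.W351.BE
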