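import Pool.Agent.W851.BE.Stm

/-!
# Project BE, part ISOM: rigidity of arcs of local degree one with fixed end points
-/

open Polynomial Topology Filter MeasureTheory
open scoped ENNReal

namespace Pool.Agent.W351.BE.Isom

open Pool.Agent.W95.BK Pool.Agent.W851.BE

universe u

/-- finite sets leave room to the right -/
lemma free_right (B : Finset ℝ) (u v : ℝ) (huv : u < v) :
    ∃ w, u < w ∧ w ≤ v ∧ ∀ β ∈ B, ¬ (u < β ∧ β < w) := by
  have h1 : ∀ᶠ w in 𝓝[>] u, ∀ β ∈ B, ¬ (u < β ∧ β < w) := by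
    rw [Filter.eventually_all_finset]
    intro β _
    by_cases hβ : u < β
    · filter_upwards [Ioo_mem_nhdsGT hβ] with w hw h
      exact absurd h.2 (not_lt.2 hw.2.le)
    · exact Filter.Eventually.of_forall fun w h => hβ h.1
  obtain ⟨w, hw1, hw2⟩ := (h1.and (Ioo_mem_nhdsGT huv)).exists
  exact ⟨w, hw2.1, hw2.2.le, hw1⟩

/-- a continuous function that is antitone to the right of every point is antitone -/
lemma antitone_of_right (g : ℝ → ℝ) (s s' : ℝ) (hg : ContinuousOn g (Set.Icc s s'))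
    (hr : ∀ u, s ≤ u → u < s' → ∃ w, u < w ∧ w ≤ s' ∧
      ∀ t t', u < t → t ≤ t' → t' < w → g t' ≤ g t) :
    ∀ x y, s ≤ x → x ≤ y → y ≤ s' → g y ≤ g x := by
  intro x y hx hxy hy
  have hsub : Set.Icc x y ⊆ Set.Icc s s' := Set.Icc_subset_Icc hx hy
  have hgc : ContinuousOn g (Set.Icc x y) := hg.mono hsub
  have hclosed : IsClosed ({u | g u ≤ g x} ∩ Set.Icc x y) := by
    have := hgc.preimage_isClosed_of_isClosed isClosed_Icc (isClosed_Iic (a := g x))
    rw [Set.inter_comm]
    exact this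
  have key := hclosed.Icc_subset_of_forall_mem_nhdsWithin (le_refl (g x)) (by
    rintro u ⟨hu1, hu2⟩
    obtain ⟨w, huw, hws, hanti⟩ := hr u (hx.trans hu2.1) (lt_of_lt_of_le hu2.2 hy)
    filter_upwards [Ioo_mem_nhdsGT huw] with v hv
    show g v ≤ g x
    refine le_trans ?_ hu1
    have hcu : ContinuousWithinAt g (Set.Icc s s') u :=
      hg u ⟨hx.trans hu2.1, (lt_of_lt_of_le hu2.2 hy).le⟩
    have hmono : Set.Ioo u v ⊆ Set.Icc s s' := fun t ht =>
      ⟨(hx.trans hu2.1).trans ht.1.le, (ht.2.le.trans hv.2.le).trans hws⟩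
    have ht : Tendsto g (𝓝[Set.Ioo u v] u) (𝓝 (g u)) := hcu.mono hmono
    rw [nhdsWithin_Ioo_eq_nhdsGT hv.1] at ht
    refine ge_of_tendsto ht ?_
    filter_upwards [Ioo_mem_nhdsGT hv.1] with t ht'
    exact hanti t v ht'.1 ht'.2.le hv.2)
  exact key ⟨hxy, le_refl y⟩

theorem main (hZT : S_ZT.{u}) (hBR : S_BR.{u}) (hGLAM : S_GLAM.{u}) (hEV : S_EV.{u})
    (hT2 : S_T2.{u}) (hACTC : S_ACTC.{u}) (hACT : S_ACT.{u}) : S_ISOM.{u} := by
  intro K _ _ _ f b s s' hs hss' hdeg hfs hfs'
  obtain ⟨hzt1, hzt2, hzt3, -⟩ := hZT K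
  obtain ⟨-, -, hT, -⟩ := hT2 K
  have := hT
  have hact := (hACT K f).1
  have hex : ∀ t : ℝ, ∃ y : BA K, 0 < t → f.act (zt b t) = (y : P1B K) := by
    intro t
    by_cases ht : 0 < t
    · obtain ⟨y, -, hy, -⟩ := hact (gauss b t ht) (hzt3 b t ht)
      exact ⟨y, fun _ => by rw [zt_pos b ht, hy]⟩
    · exact ⟨cl b, fun h => absurd h ht⟩
  choose y hy using hex
  have hcont : ContinuousOn (fun t => f.act (zt b t)) (Set.Ioi 0) :=
    (hACTC K f).comp_continuousOn (hzt2 b)
  have hycont : ContinuousOn y (Set.Ioi 0) := by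
    rw [OnePoint.isOpenEmbedding_coe.isInducing.continuousOn_iff]
    refine hcont.congr ?_
    intro t ht
    exact (hy t ht).symm
  have hL : ContinuousOn (fun t => lam (y t) b) (Set.Ioi 0) :=
    (hEV K (X - C b)).comp_continuousOn hycont
  have hval : ∀ (t : ℝ) (c : K) (r : ℝ), 0 < t → 0 < r → f.act (zt b t) = zt c r →
      lam (y t) b = max ‖c - b‖ r := by
    intro t c r ht hr h
    rw [hy t ht, zt_pos c hr] at h
    have h' : y t = gauss c r hr := OnePoint.coe_injective h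
    rw [h']
    exact (hGLAM K c b).2 r hr
  obtain ⟨B, hB⟩ := hBR K f b
  -- nice intervals to the right of every point
  have hnice : ∀ u, s ≤ u → u < s' → ∃ w, u < w ∧ w ≤ s' ∧ nice f b (Set.Ioo u w) := by
    intro u hu1 hu2
    obtain ⟨w, hw1, hw2, hw3⟩ := free_right B u s' hu2
    refine ⟨w, hw1, hw2, ?_⟩
    rcases hB u w (hs.le.trans hu1) hw1 hw3 with h | h
    · exfalso
      have h1 := h ((u + w) / 2) (by linarith) (by linarith)
      have h2 := hdeg ((u + w) / 2) (by linarith) (by linarith)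
      omega
    · exact h
  -- the slope function
  have hg : ContinuousOn (fun t => lam (y t) b / t) (Set.Icc s s') := by
    refine ContinuousOn.div (hL.mono fun t ht => lt_of_lt_of_le hs ht.1) continuousOn_id ?_
    intro t ht
    exact (lt_of_lt_of_le hs ht.1).ne'
  have hanti := antitone_of_right _ s s' hg (by
    intro u hu1 hu2
    obtain ⟨w, hw1, hw2, hn⟩ := hnice u hu1 hu2
    refine ⟨w, hw1, hw2, ?_⟩
    intro t t' hut htt' htw
    have hu0 : 0 < u := lt_of_lt_of_le hs hu1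
    have ht0 : 0 < t := hu0.trans hut
    have ht0' : 0 < t' := lt_of_lt_of_le ht0 htt'
    obtain ⟨-, c, κ, hκ, h | h⟩ := hn
    · have e1 := hval t c (κ * t) ht0 (mul_pos hκ ht0) (h t ⟨hut, lt_of_le_of_lt htt' htw⟩)
      have e2 := hval t' c (κ * t') ht0' (mul_pos hκ ht0') (h t' ⟨lt_of_lt_of_le hut htt', htw⟩)
      simp only [e1, e2]
      rw [div_le_div_iff₀ ht0' ht0]
      rcases le_total (‖c - b‖) (κ * t') with hc | hc
      · rw [max_eq_right hc]
        have : κ * t ≤ max ‖c - b‖ (κ * t) := le_max_right _ _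
        calc κ * t' * t = (κ * t) * t' := by ring
          _ ≤ max ‖c - b‖ (κ * t) * t' := mul_le_mul_of_nonneg_right this ht0'.le
      · rw [max_eq_left hc]
        have : ‖c - b‖ ≤ max ‖c - b‖ (κ * t) := le_max_left _ _
        calc ‖c - b‖ * t ≤ ‖c - b‖ * t' := mul_le_mul_of_nonneg_left htt' (norm_nonneg _)
          _ ≤ max ‖c - b‖ (κ * t) * t' := mul_le_mul_of_nonneg_right this ht0'.le
    · have e1 := hval t c (κ / t) ht0 (div_pos hκ ht0) (h t ⟨hut, lt_of_le_of_lt htt' htw⟩)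
      have e2 := hval t' c (κ / t') ht0' (div_pos hκ ht0') (h t' ⟨lt_of_lt_of_le hut htt', htw⟩)
      simp only [e1, e2]
      have hk : κ / t' ≤ κ / t := div_le_div_of_nonneg_left hκ.le ht0 htt'
      have hm : max ‖c - b‖ (κ / t') ≤ max ‖c - b‖ (κ / t) := max_le_max le_rfl hk
      have hnn : 0 ≤ max ‖c - b‖ (κ / t) := le_trans (norm_nonneg _) (le_max_left _ _)
      exact div_le_div₀ hnn hm ht0 htt')
  have hs' : 0 < s' := hs.trans hss'
  have hLs : lam (y s) b / s = 1 := by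
    rw [hval s b s hs hs hfs]
    simp [hs.le, hs.ne']
  have hLs' : lam (y s') b / s' = 1 := by
    rw [hval s' b s' hs' hs' hfs']
    simp [hs'.le, hs'.ne']
  have hone : ∀ t, s ≤ t → t ≤ s' → lam (y t) b = t := by
    intro t ht1 ht2
    have h1 : lam (y t) b / t ≤ lam (y s) b / s := hanti s t le_rfl ht1 ht2
    have h2 : lam (y s') b / s' ≤ lam (y t) b / t := hanti t s' ht1 ht2 le_rfl
    rw [hLs] at h1
    rw [hLs'] at h2
    have h3 : lam (y t) b / t = 1 := le_antisymm h1 h2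
    have ht0 : 0 < t := lt_of_lt_of_le hs ht1
    rwa [div_eq_one_iff_eq ht0.ne'] at h3
  -- fixed points on nice intervals
  have hfix : ∀ u w, s ≤ u → u < w → w ≤ s' → nice f b (Set.Ioo u w) →
      ∀ t, u < t → t < w → f.act (zt b t) = zt b t := by
    intro u w hu huw hw hn t hut htw
    have hu0 : 0 < u := lt_of_lt_of_le hs hu
    have ht0 : 0 < t := hu0.trans hut
    obtain ⟨-, c, κ, hκ, h | h⟩ := hn
    · obtain ⟨p, hp1, hp2⟩ := exists_between hut
      have hp0 : 0 < p := hu0.trans hp1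
      have e1 := hval t c (κ * t) ht0 (mul_pos hκ ht0) (h t ⟨hut, htw⟩)
      have e2 := hval p c (κ * p) hp0 (mul_pos hκ hp0) (h p ⟨hp1, hp2.trans htw⟩)
      rw [hone t (hu.trans hut.le) (htw.le.trans hw)] at e1
      rw [hone p (hu.trans hp1.le) ((hp2.le.trans htw.le).trans hw)] at e2
      have hcp : ‖c - b‖ ≤ p := by rw [e2]; exact le_max_left _ _
      have hct : ‖c - b‖ < t := lt_of_le_of_lt hcp hp2
      have hκt : κ * t = t := by
        rcases le_total (‖c - b‖) (κ * t) with hc | hc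
        · rw [max_eq_right hc] at e1
          exact e1.symm
        · rw [max_eq_left hc] at e1
          exact absurd e1 hct.ne'
      rw [h t ⟨hut, htw⟩, hκt]
      exact (hzt1 c b t t ht0 ht0).2 ⟨rfl, hct.le⟩
    · exfalso
      obtain ⟨p, hp1, hp2⟩ := exists_between hut
      obtain ⟨q, hq1, hq2⟩ := exists_between hp2
      have hp0 : 0 < p := hu0.trans hp1
      have hq0 : 0 < q := hp0.trans hq1
      have e1 := hval t c (κ / t) ht0 (div_pos hκ ht0) (h t ⟨hut, htw⟩)
      have e2 := hval p c (κ / p) hp0 (div_pos hκ hp0) (h p ⟨hp1, hp2.trans htw⟩)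
      have e3 := hval q c (κ / q) hq0 (div_pos hκ hq0) (h q ⟨hp1.trans hq1, hq2.trans htw⟩)
      rw [hone t (hu.trans hut.le) (htw.le.trans hw)] at e1
      rw [hone p (hu.trans hp1.le) ((hp2.le.trans htw.le).trans hw)] at e2
      rw [hone q (hu.trans (hp1.trans hq1).le) ((hq2.le.trans htw.le).trans hw)] at e3
      have hcp : ‖c - b‖ ≤ p := by rw [e2]; exact le_max_left _ _
      have hκt : κ / t = t := by
        rcases le_total (‖c - b‖) (κ / t) with hc | hc
        · rw [max_eq_right hc] at e1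
          exact e1.symm
        · rw [max_eq_left hc] at e1
          exact absurd e1 (lt_of_le_of_lt hcp hp2).ne'
      have hκq : κ / q = q := by
        rcases le_total (‖c - b‖) (κ / q) with hc | hc
        · rw [max_eq_right hc] at e3
          exact e3.symm
        · rw [max_eq_left hc] at e3
          exact absurd e3 (lt_of_le_of_lt hcp hq1).ne'
      rw [div_eq_iff ht0.ne'] at hκt
      rw [div_eq_iff hq0.ne'] at hκq
      nlinarith
  -- conclusion
  intro u hu1 hu2
  rcases eq_or_lt_of_le hu2 with h | hus'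
  · rw [h]; exact hfs'
  have hu0 : 0 < u := lt_of_lt_of_le hs hu1
  obtain ⟨w, hw1, hw2, hn⟩ := hnice u hu1 hus'
  have hsub : Set.Ioo u w ⊆ Set.Ioi 0 := fun t ht => hu0.trans ht.1
  have l1 : Tendsto (fun t => f.act (zt b t)) (𝓝[Set.Ioo u w] u) (𝓝 (f.act (zt b u))) :=
    (hcont u hu0).mono hsub
  have l2 : Tendsto (fun t => zt b t) (𝓝[Set.Ioo u w] u) (𝓝 (zt b u)) :=
    (hzt2 b u hu0).mono hsub
  have hne : (𝓝[Set.Ioo u w] u).NeBot := by
    rw [nhdsWithin_Ioo_eq_nhdsGT hw1]
    infer_instance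
  refine tendsto_nhds_unique_of_eventuallyEq l1 l2 ?_
  filter_upwards [self_mem_nhdsWithin] with t ht
  exact hfix u w hu1 hw1 hw2 hn t ht.1 ht.2

end Pool.Agent.W351.BE.Isom
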